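import Pool.Agent.Helper61.P3.St4

/-! Project P3 (MP_cb927e_an), module SON: one class, fixed `V`. -/

set_option autoImplicit false

open MeasureTheory Set Filter Topology
open scoped ENNReal RealInnerProductSpace

namespace Pool.Agent.Helper64.P3

open Pool.Agent.Helper61.P3 Pool.Agent.Helper20.RG Pool.Agent.Helper20.EQ
open Pool.Agent.Helper68.LM (Pl BB Bd Av HL ft fm DQ)
open Pool.Agent.Helper68.EP (elt GapP)

private theorem geo_ne_top {a : ℝ} (h0 : 0 ≤ a) (h1 : a < 1) :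
    ∑' n : ℕ, ENNReal.ofReal (a ^ n) ≠ ⊤ :=
  (summable_geometric_of_lt_one h0 h1).tsum_ofReal_ne_top

private theorem two_rpow_neg_lt {x : ℝ} (hx : 0 < x) : (2 : ℝ) ^ (-x) < 1 :=
  Real.rpow_lt_one_of_one_lt_of_neg (by norm_num) (by linarith)

private theorem double_ne_top (K : ℝ) (hK : 0 ≤ K) :
    ∑' n : ℕ, ∑' ρ : ℕ, ENNReal.ofReal (K * (2 : ℝ) ^ (-((2 * (n : ℝ) + ρ) / 4))) ≠ ⊤ := by
  have e : ∀ n ρ : ℕ, ENNReal.ofReal (K * (2 : ℝ) ^ (-((2 * (n : ℝ) + ρ) / 4))) =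
      ENNReal.ofReal K * (ENNReal.ofReal (((2 : ℝ) ^ (-(1 / 2 : ℝ))) ^ n) *
        ENNReal.ofReal (((2 : ℝ) ^ (-(1 / 4 : ℝ))) ^ ρ)) := by
    intro n ρ
    rw [← ENNReal.ofReal_mul (by positivity), ← ENNReal.ofReal_mul hK]
    congr 2
    rw [← Real.rpow_natCast, ← Real.rpow_natCast, ← Real.rpow_mul (by norm_num),
      ← Real.rpow_mul (by norm_num), ← Real.rpow_add (by norm_num)]
    congr 1
    ring
  simp_rw [e, ENNReal.tsum_mul_left, ENNReal.tsum_mul_right]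
  have h1 := geo_ne_top (a := (2 : ℝ) ^ (-(1 / 2 : ℝ))) (by positivity)
    (two_rpow_neg_lt (by norm_num))
  have h2 := geo_ne_top (a := (2 : ℝ) ^ (-(1 / 4 : ℝ))) (by positivity)
    (two_rpow_neg_lt (by norm_num))
  exact ENNReal.mul_ne_top ENNReal.ofReal_ne_top (ENNReal.mul_ne_top h1 h2)

private theorem exists_U {V : ℝ} (hV : 0 < V) (U₀ : ℕ) :
    ∃ U : ℕ, U₀ ≤ U ∧ (2 : ℝ) ^ (-((U : ℝ) / 20000)) ≤ V := by
  obtain ⟨m, hm⟩ := exists_pow_lt_of_lt_one hV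
    (two_rpow_neg_lt (x := (1 / 20000 : ℝ)) (by norm_num))
  refine ⟨U₀ + m, Nat.le_add_right _ _, ?_⟩
  have h1 : ((2 : ℝ) ^ (-(1 / 20000 : ℝ))) ^ m = (2 : ℝ) ^ (-((m : ℝ) / 20000)) := by
    rw [← Real.rpow_natCast, ← Real.rpow_mul (by norm_num)]
    congr 1
    ring
  rw [h1] at hm
  refine le_trans (Real.rpow_le_rpow_of_exponent_le (by norm_num) ?_) hm.le
  have h2 : (0 : ℝ) ≤ (U₀ : ℝ) := Nat.cast_nonneg _
  push_cast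
  linarith

/-- MODULE SON -/
theorem hSON (hSU0 : Pool.Agent.Helper61.P3.StSU0) (hSUT : Pool.Agent.Helper61.P3.StSUT) :
    Pool.Agent.Helper61.P3.StSON := by
  intro φ τ A c hG hA hGap V hV hV1
  obtain ⟨C1, U₀, hC1, hU₀, h1⟩ := hSUT φ τ A c hG hA hGap
  obtain ⟨U, hU, hUV⟩ := exists_U hV U₀
  obtain ⟨C0, hC0, h0⟩ := hSU0 φ τ A c hG hA hGap V U hV
  obtain ⟨S, hS⟩ : ∃ S : ℝ≥0∞, S = ∑' n : ℕ, ∑' ρ : ℕ,
      ENNReal.ofReal (C1 / V ^ 6 * (2 : ℝ) ^ (-((2 * (n : ℝ) + ρ) / 4))) := ⟨_, rfl⟩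
  have hSf : S ≠ ⊤ := by
    rw [hS]
    exact double_ne_top _ (by positivity)
  have hS0 : 0 ≤ S.toReal := ENNReal.toReal_nonneg
  refine ⟨C0 + C1 + S.toReal, by linarith, ?_⟩
  intro R₀ f hR₀ hf hf0
  have hR1 : C1 ≤ R₀ := by linarith
  obtain ⟨I, hI⟩ : ∃ I : ℝ≥0∞, I = ∫⁻ x, ENNReal.ofReal (f x) ^ (3 : ℝ) := ⟨_, rfl⟩
  obtain ⟨X, hX⟩ : ∃ X : ℕ → ℕ → ℤ → ℝ≥0∞, X = fun n ρ l => ∑' u : ℕ,
      (if U₀ ≤ u ∧ (2 : ℝ) ^ (-((u : ℝ) / 20000)) ≤ V then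
        ∑' k : ℤ, volume {x | Gd R₀ l f x ∧ TY c φ τ V u n ρ k l f x} else 0) := ⟨_, rfl⟩
  have hXl : ∀ n ρ : ℕ, ∑' l : ℤ, ENNReal.ofReal ((2 : ℝ) ^ (3 * l)) * X n ρ l ≤
      ENNReal.ofReal (C1 / V ^ 6 * (2 : ℝ) ^ (-((2 * (n : ℝ) + ρ) / 4))) * I := by
    intro n ρ
    rw [hX, hI]
    exact h1 V R₀ n ρ f hV hV1 hR1 hf hf0
  have key : ∀ l : ℤ, volume {x | Gd R₀ l f x ∧ ∃ (k : ℤ) (u n ρ : ℕ), 2 ≤ u ∧
      TY c φ τ V u n ρ k l f x} ≤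
      volume {x | ∃ (k : ℤ) (u n ρ : ℕ), 2 ≤ u ∧ u < U ∧ TY c φ τ V u n ρ k l f x} +
        ∑' n : ℕ, ∑' ρ : ℕ, X n ρ l := by
    intro l
    have hsub : {x | Gd R₀ l f x ∧ ∃ (k : ℤ) (u n ρ : ℕ), 2 ≤ u ∧ TY c φ τ V u n ρ k l f x} ⊆
        {x | ∃ (k : ℤ) (u n ρ : ℕ), 2 ≤ u ∧ u < U ∧ TY c φ τ V u n ρ k l f x} ∪
        ⋃ n : ℕ, ⋃ ρ : ℕ, ⋃ u : ℕ, (if U₀ ≤ u ∧ (2 : ℝ) ^ (-((u : ℝ) / 20000)) ≤ V then
          ⋃ k : ℤ, {x | Gd R₀ l f x ∧ TY c φ τ V u n ρ k l f x} else ∅) := by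
      rintro x ⟨hx1, k, u, n, ρ, hu, hx2⟩
      rcases lt_or_ge u U with h | h
      · exact Or.inl ⟨k, u, n, ρ, hu, h, hx2⟩
      · refine Or.inr ?_
        refine mem_iUnion.2 ⟨n, mem_iUnion.2 ⟨ρ, mem_iUnion.2 ⟨u, ?_⟩⟩⟩
        rw [if_pos]
        · exact mem_iUnion.2 ⟨k, hx1, hx2⟩
        · refine ⟨hU.trans h, le_trans (Real.rpow_le_rpow_of_exponent_le (by norm_num) ?_) hUV⟩
          have h3 : (U : ℝ) ≤ (u : ℝ) := by exact_mod_cast h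
          linarith
    refine (measure_mono hsub).trans ((measure_union_le _ _).trans (add_le_add le_rfl ?_))
    refine (measure_iUnion_le _).trans (ENNReal.tsum_le_tsum fun n => ?_)
    refine (measure_iUnion_le _).trans (ENNReal.tsum_le_tsum fun ρ => ?_)
    rw [hX]
    refine (measure_iUnion_le _).trans (ENNReal.tsum_le_tsum fun u => ?_)
    split_ifs with h
    · exact measure_iUnion_le _
    · simp
  have hsum : ∑' l : ℤ, ENNReal.ofReal ((2 : ℝ) ^ (3 * l)) * (∑' n : ℕ, ∑' ρ : ℕ, X n ρ l) =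
      ∑' n : ℕ, ∑' ρ : ℕ, ∑' l : ℤ, ENNReal.ofReal ((2 : ℝ) ^ (3 * l)) * X n ρ l := by
    calc _ = ∑' l : ℤ, ∑' n : ℕ, ∑' ρ : ℕ, ENNReal.ofReal ((2 : ℝ) ^ (3 * l)) * X n ρ l := by
          refine tsum_congr fun l => ?_
          rw [← ENNReal.tsum_mul_left]
          refine tsum_congr fun n => ?_
          rw [← ENNReal.tsum_mul_left]
      _ = ∑' n : ℕ, ∑' l : ℤ, ∑' ρ : ℕ, ENNReal.ofReal ((2 : ℝ) ^ (3 * l)) * X n ρ l :=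
          ENNReal.tsum_comm
      _ = _ := tsum_congr fun n => ENNReal.tsum_comm
  rw [← hI]
  calc _ ≤ ∑' l : ℤ, ENNReal.ofReal ((2 : ℝ) ^ (3 * l)) *
        (volume {x | ∃ (k : ℤ) (u n ρ : ℕ), 2 ≤ u ∧ u < U ∧ TY c φ τ V u n ρ k l f x} +
        ∑' n : ℕ, ∑' ρ : ℕ, X n ρ l) :=
        ENNReal.tsum_le_tsum fun l => mul_le_mul_right (key l) _
    _ = ∑' l : ℤ, ENNReal.ofReal ((2 : ℝ) ^ (3 * l)) *
        volume {x | ∃ (k : ℤ) (u n ρ : ℕ), 2 ≤ u ∧ u < U ∧ TY c φ τ V u n ρ k l f x} +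
        ∑' n : ℕ, ∑' ρ : ℕ, ∑' l : ℤ, ENNReal.ofReal ((2 : ℝ) ^ (3 * l)) * X n ρ l := by
        rw [← hsum, ← ENNReal.tsum_add]
        refine tsum_congr fun l => ?_
        rw [mul_add]
    _ ≤ ENNReal.ofReal C0 * I + ∑' n : ℕ, ∑' ρ : ℕ,
        ENNReal.ofReal (C1 / V ^ 6 * (2 : ℝ) ^ (-((2 * (n : ℝ) + ρ) / 4))) * I := by
        refine add_le_add ?_ (ENNReal.tsum_le_tsum fun n => ENNReal.tsum_le_tsum fun ρ => hXl n ρ)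
        rw [hI]
        exact h0 f hf hf0
    _ = (ENNReal.ofReal C0 + S) * I := by
        rw [add_mul, hS, ← ENNReal.tsum_mul_right]
        congr 1
        refine tsum_congr fun n => ?_
        rw [ENNReal.tsum_mul_right]
    _ ≤ ENNReal.ofReal (C0 + C1 + S.toReal) * I := by
        refine mul_le_mul_left ?_ _
        rw [ENNReal.ofReal_add (by linarith) hS0, ENNReal.ofReal_toReal hSf]
        exact add_le_add (ENNReal.ofReal_le_ofReal (by linarith)) le_rfl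

end Pool.Agent.Helper64.P3
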